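import Pool.Agent.SGP.Stmts

/-!
Row ROT of the squad SGP: rotation of the corners of a triangulated triangle.
-/

noncomputable section

namespace Pool.Agent.SGP.H77

open Pool.Agent.SGE

theorem rot : RotStmt := by
  intro V _ a b c E F h
  obtain ⟨h1, h2, h3, -⟩ := h.bd
  have hnd := h.nd
  have hac : a ≠ c := by
    intro e
    subst e
    simp at hnd
  have hcb : c ≠ b := by
    intro e
    subst e
    simp at hnd
  have hEab : E a b := by
    obtain ⟨l, hl, -, -, -, hE, -⟩ := h1
    rw [hE]
    exact List.mem_of_mem_head? (by rw [hl]; rfl)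
  have hmem : ∀ z : V, z ∉ [b, a, c] → z ∉ [a, c, b] := by
    intro z hz hz'
    apply hz
    simp only [List.mem_cons, List.not_mem_nil, or_false] at hz' ⊢
    tauto
  exact {
    ab := fun e => hcb e.symm
    nd := by
      simp only [List.nodup_cons, List.mem_cons, List.not_mem_nil, or_false, not_or,
        List.nodup_nil, not_false_eq_true, and_true]
      exact ⟨⟨fun e => h.ab e.symm, fun e => hcb e.symm⟩, hac⟩
    hd := rfl
    ls := rfl
    sym := h.sym
    irr := h.irr
    rot := h.rot
    fn := h.fn
    fe := h.fe
    bd := ⟨h3, h1, h2, trivial⟩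
    int := fun z v hz hv => h.int z v (hmem z hz) hv
    hom := h.hom
    con := fun u v huv => Relation.ReflTransGen.head (h.sym _ _ hEab) (h.con u v huv) }

end Pool.Agent.SGP.H77
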